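import Pool.Agent.X275.PG.Dig2

/-!
# No polygonal digraph has Laplacian spread strictly between `0` and `1`
-/

set_option autoImplicit false

open Finset Matrix

namespace Pool.Agent.Results.MP_e61cf5_co.SpreadGap

open Pool.Agent.X18.Spread Pool.Agent.X275.PG

variable {n : ℕ}

/-- The Laplacian as a complex matrix. -/
noncomputable def lapC (G : Digraph (Fin n)) : Matrix (Fin n) (Fin n) ℂ :=
  Matrix.of fun i j => ((lap G i j : ℝ) : ℂ)

/-- The restricted numerical range `W_r(G)`: all `x* L x` for complex unit vectors `x` orthogonal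
to the all-ones vector. -/
def numRange (G : Digraph (Fin n)) : Set ℂ :=
  {z | ∃ x : Fin n → ℂ, ∑ i, x i = 0 ∧ ∑ i, ‖x i‖ ^ 2 = 1 ∧ z = star x ⬝ᵥ (lapC G *ᵥ x)}

/-- `Q` is a restrictor matrix: its `n - 1` columns are orthonormal and orthogonal to the
all-ones vector. -/
def IsRestrictor (Q : Matrix (Fin n) (Fin (n - 1)) ℂ) : Prop :=
  Qᴴ * Q = 1 ∧ ∀ k, ∑ i, Q i k = 0

/-- The set of eigenvalues of a square complex matrix. -/
def eigenvalues {m : ℕ} (M : Matrix (Fin m) (Fin m) ℂ) : Set ℂ :=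
  {μ | ∃ y : Fin m → ℂ, y ≠ 0 ∧ M *ᵥ y = μ • y}

/-- `G` is polygonal: for some restrictor matrix `Q`, `W_r(G)` is the convex hull of the
eigenvalues of `Q* L Q`. -/
def IsPolygonal (G : Digraph (Fin n)) : Prop :=
  ∃ Q : Matrix (Fin n) (Fin (n - 1)) ℂ, IsRestrictor Q ∧
    numRange G = convexHull ℝ (eigenvalues (Qᴴ * lapC G * Q))

lemma sum_normSq_eq {m : ℕ} (y : Fin m → ℂ) :
    ((∑ i, ‖y i‖ ^ 2 : ℝ) : ℂ) = star y ⬝ᵥ y := by
  simp only [dotProduct, Pi.star_apply, RCLike.star_def]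
  push_cast
  exact sum_congr rfl fun i _ => (Complex.conj_mul' (y i)).symm

lemma normSq_split (x : Fin n → ℂ) :
    ∑ i, ‖x i‖ ^ 2 = ∑ i, (x i).re ^ 2 + ∑ i, (x i).im ^ 2 := by
  rw [← sum_add_distrib]
  refine sum_congr rfl fun i _ => ?_
  rw [← Complex.normSq_eq_norm_sq, Complex.normSq_apply]
  ring

lemma form_re (G : Digraph (Fin n)) (x : Fin n → ℂ) : (star x ⬝ᵥ (lapC G *ᵥ x)).re =
    F G (fun i => (x i).re) + F G (fun i => (x i).im) := by
  unfold F lapC
  simp only [dotProduct, mulVec, Complex.re_sum, Pi.star_apply, RCLike.star_def, of_apply]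
  rw [← sum_add_distrib]
  refine sum_congr rfl fun i _ => ?_
  rw [Complex.mul_re, Complex.re_sum, Complex.im_sum]
  simp only [Complex.conj_re, Complex.conj_im, Complex.mul_re, Complex.mul_im, Complex.ofReal_re,
    Complex.ofReal_im, zero_mul, sub_zero, add_zero]
  ring

lemma restrictor_complete (Q : Matrix (Fin 4) (Fin (4 - 1)) ℂ) (hQ : IsRestrictor Q)
    (x : Fin 4 → ℂ) (hx : ∑ i, x i = 0) : Q *ᵥ (Qᴴ *ᵥ x) = x := by
  let E : Matrix (Fin 4) Unit ℂ := Matrix.of fun _ _ => (1 / 2 : ℂ)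
  have hEQ : Eᴴ * Q = 0 := by
    ext i k
    simp only [mul_apply, conjTranspose_apply, E, of_apply, Matrix.zero_apply]
    rw [← mul_sum, hQ.2 k, mul_zero]
  have hQE : Qᴴ * E = 0 := by
    have := congrArg conjTranspose hEQ
    rwa [conjTranspose_mul, conjTranspose_conjTranspose, conjTranspose_zero] at this
  have hEE : Eᴴ * E = 1 := by
    ext i k
    simp [mul_apply, E]
    norm_num
  have h1 : fromRows Qᴴ Eᴴ * fromCols Q E = 1 := by
    rw [fromRows_mul_fromCols, hQ.1, hQE, hEQ, hEE, fromBlocks_one]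
  have e : Fin 4 ≃ Fin (4 - 1) ⊕ Unit := Fintype.equivOfCardEq (by simp)
  have h2 := (fromCols_mul_fromRows_eq_one_comm e Q E Qᴴ Eᴴ).2 h1
  rw [fromCols_mul_fromRows] at h2
  have h3 : Eᴴ *ᵥ x = 0 := by
    funext i
    simp only [mulVec, dotProduct, conjTranspose_apply, E, of_apply, Pi.zero_apply]
    rw [← mul_sum, hx, mul_zero]
  calc Q *ᵥ (Qᴴ *ᵥ x) = (Q * Qᴴ) *ᵥ x + E *ᵥ (Eᴴ *ᵥ x) := by
        rw [h3, mulVec_zero, add_zero, mulVec_mulVec]
    _ = x := by rw [mulVec_mulVec, ← add_mulVec, h2, one_mulVec]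

lemma sum4 {K : Type*} [AddCommMonoid K] (g : Fin 4 → K) {i j k l : Fin 4} (hij : i ≠ j)
    (hik : i ≠ k) (hil : i ≠ l) (hjk : j ≠ k) (hjl : j ≠ l) (hkl : k ≠ l) :
    ∑ m, g m = g i + g j + g k + g l := by
  have hf := inj4 hij hik hil hjk hjl hkl
  have hb : Function.Bijective ![i, j, k, l] := Finite.injective_iff_bijective.1 hf
  rw [← (Equiv.ofBijective _ hb).sum_comp g, Fin.sum_univ_four]
  rfl

section core

variable {E : Fin 4 → Fin 4 → ℤ} {i j k l : Fin 4}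

lemma fm_pat (hsymm : ∀ a b, E a b = E b a) (hdiag : ∀ a, E a a = 0) (hP : Pat E i j k l)
    (x : Fin 4 → ℝ) : fm E x = 2 * x i * (x j + x k) := by
  obtain ⟨hij, hik, hil, hjk, hjl, hkl, e1, e2, e3, e4⟩ := hP
  have e5 : ∀ m, E m l = 0 := fun m => by rw [hsymm]; exact e4 m
  have s1 : E j i = 1 := by rw [hsymm]; exact e1
  have s2 : E k i = 1 := by rw [hsymm]; exact e2
  have s3 : E k j = 0 := by rw [hsymm]; exact e3
  unfold fm
  simp only [sum4 _ hij hik hil hjk hjl hkl, e1, e2, e3, e4, e5, s1, s2, s3, hdiag]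
  push_cast
  ring

lemma sqrt3_sq : (√3 : ℝ) ^ 2 = 3 := Real.sq_sqrt (by norm_num)

lemma sqrt3_pos : (0 : ℝ) < √3 := Real.sqrt_pos.2 (by norm_num)

/-- The sum-of-squares identity. -/
lemma sos (hsymm : ∀ a b, E a b = E b a) (hdiag : ∀ a, E a a = 0) (hP : Pat E i j k l)
    (x : Fin 4 → ℝ) (hx : ∑ m, x m = 0) :
    fm E x + (1 + √3) / 2 * (∑ m, x m ^ 2) =
      (√3 / (12 + 4 * √3)) * (√3 * x i + x j + x k - (√3 + 2) * x l) ^ 2 +
        (1 + √3) / 4 * (x j - x k) ^ 2 := by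
  have h := fm_pat hsymm hdiag hP x
  obtain ⟨hij, hik, hil, hjk, hjl, hkl, -⟩ := hP
  rw [sum4 _ hij hik hil hjk hjl hkl] at hx
  rw [h, sum4 _ hij hik hil hjk hjl hkl]
  have hl : x l = -(x i + x j + x k) := by linarith
  rw [hl]
  have h3 := sqrt3_sq
  have hpos := sqrt3_pos
  have hne : (12 + 4 * √3 : ℝ) ≠ 0 := by positivity
  have e : √3 / (12 + 4 * √3) = (√3 - 1) / 8 := by
    rw [div_eq_div_iff hne (by norm_num)]
    linear_combination (-4) * h3
  rw [e]
  linear_combination (-(x i + x j / 2 + x k / 2) ^ 2 * (√3 + 1) / 2 -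
    (x i * x j + x i * x k + x j * x k + (x j ^ 2 + x k ^ 2) / 2)) * h3

/-- The extreme value. -/
noncomputable def kap (γ τ : ℤ) : ℝ := (2 * γ + τ * (1 + √3)) / 4

lemma gap_eq {G : Digraph (Fin 4)} {γ τ : ℤ} (hsymm : ∀ a b, E a b = E b a)
    (hdiag : ∀ a, E a a = 0) (hP : Pat E i j k l) (hτ : τ = 1 ∨ τ = -1)
    (hF : ∀ x : Fin 4 → ℝ, ∑ m, x m = 0 → F G x = γ / 2 * (∑ m, x m ^ 2) - τ / 2 * fm E x)
    (x : Fin 4 → ℝ) (hx : ∑ m, x m = 0) :
    τ * (kap γ τ * (∑ m, x m ^ 2) - F G x) =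
      (√3 / (12 + 4 * √3)) / 2 * (√3 * x i + x j + x k - (√3 + 2) * x l) ^ 2 +
        (1 + √3) / 8 * (x j - x k) ^ 2 := by
  have h1 := sos hsymm hdiag hP x hx
  have h2 := hF x hx
  have hτ2 : (τ : ℝ) ^ 2 = 1 := by rcases hτ with rfl | rfl <;> norm_num
  rw [h2]
  unfold kap
  linear_combination h1 / 2 + ((1 + √3) / 4 * (∑ m, x m ^ 2) + fm E x / 2) * hτ2

lemma gap_nonneg {G : Digraph (Fin 4)} {γ τ : ℤ} (hsymm : ∀ a b, E a b = E b a)
    (hdiag : ∀ a, E a a = 0) (hP : Pat E i j k l) (hτ : τ = 1 ∨ τ = -1)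
    (hF : ∀ x : Fin 4 → ℝ, ∑ m, x m = 0 → F G x = γ / 2 * (∑ m, x m ^ 2) - τ / 2 * fm E x)
    (x : Fin 4 → ℝ) (hx : ∑ m, x m = 0) :
    0 ≤ τ * (kap γ τ * (∑ m, x m ^ 2) - F G x) := by
  rw [gap_eq hsymm hdiag hP hτ hF x hx]
  have := sqrt3_pos
  positivity

lemma gap_zero {G : Digraph (Fin 4)} {γ τ : ℤ} (hsymm : ∀ a b, E a b = E b a)
    (hdiag : ∀ a, E a a = 0) (hP : Pat E i j k l) (hτ : τ = 1 ∨ τ = -1)
    (hF : ∀ x : Fin 4 → ℝ, ∑ m, x m = 0 → F G x = γ / 2 * (∑ m, x m ^ 2) - τ / 2 * fm E x)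
    (x : Fin 4 → ℝ) (hx : ∑ m, x m = 0)
    (h0 : τ * (kap γ τ * (∑ m, x m ^ 2) - F G x) = 0) :
    x k = x j ∧ x i = -√3 * x j ∧ x l = (√3 - 2) * x j := by
  rw [gap_eq hsymm hdiag hP hτ hF x hx] at h0
  have hpos := sqrt3_pos
  have h3 := sqrt3_sq
  have c1 : 0 < (√3 / (12 + 4 * √3)) / 2 := by positivity
  have c2 : 0 < (1 + √3) / 8 := by positivity
  have n1 : 0 ≤ (√3 / (12 + 4 * √3)) / 2 * (√3 * x i + x j + x k - (√3 + 2) * x l) ^ 2 := by
    positivity
  have n2 : 0 ≤ (1 + √3) / 8 * (x j - x k) ^ 2 := by positivity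
  have z1 : (√3 / (12 + 4 * √3)) / 2 * (√3 * x i + x j + x k - (√3 + 2) * x l) ^ 2 = 0 := by
    linarith
  have z2 : (1 + √3) / 8 * (x j - x k) ^ 2 = 0 := by linarith
  have w1 : √3 * x i + x j + x k - (√3 + 2) * x l = 0 := by
    rcases mul_eq_zero.1 z1 with h | h
    · exact absurd h c1.ne'
    · exact pow_eq_zero_iff (two_ne_zero) |>.1 h
  have w2 : x j - x k = 0 := by
    rcases mul_eq_zero.1 z2 with h | h
    · exact absurd h c2.ne'
    · exact pow_eq_zero_iff (two_ne_zero) |>.1 h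
  obtain ⟨hij, hik, hil, hjk, hjl, hkl, -⟩ := hP
  rw [sum4 _ hij hik hil hjk hjl hkl] at hx
  have hk : x k = x j := by linarith
  have hl : x l = -(x i + 2 * x j) := by linarith
  rw [hk, hl] at w1
  have w3 : (√3 + 1) * (x i + √3 * x j) = 0 := by
    linear_combination w1 / 2 + x j * h3
  have w4 : x i + √3 * x j = 0 := by
    rcases mul_eq_zero.1 w3 with h | h
    · exact absurd h (by positivity)
    · exact h
  refine ⟨hk, by linarith, ?_⟩
  rw [hl]; linarith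

end core

/-- The case of four vertices. -/
theorem four {G : Digraph (Fin 4)} (hl : ∀ i, ¬ G.Adj i i) {E : Fin 4 → Fin 4 → ℤ} {γ τ : ℤ}
    {i j k l : Fin 4} (hsymm : ∀ a b, E a b = E b a)
    (hdiag : ∀ a, E a a = 0) (hP : Pat E i j k l) (hτ : τ = 1 ∨ τ = -1)
    (hF : ∀ x : Fin 4 → ℝ, ∑ m, x m = 0 → F G x = γ / 2 * (∑ m, x m ^ 2) - τ / 2 * fm E x)
    (hpoly : IsPolygonal G) : False := by
  obtain ⟨Q, hQ, hconv⟩ := hpoly
  have hpos := sqrt3_pos
  have h3 := sqrt3_sq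
  have hne : i ≠ j ∧ i ≠ k ∧ i ≠ l ∧ j ≠ k ∧ j ≠ l ∧ k ≠ l := by
    obtain ⟨hij, hik, hil, hjk, hjl, hkl, -⟩ := hP
    exact ⟨hij, hik, hil, hjk, hjl, hkl⟩
  obtain ⟨hij, hik, hil, hjk, hjl, hkl⟩ := hne
  -- eigenvector facts
  have heig : ∀ μ ∈ eigenvalues (Qᴴ * lapC G * Q), ∃ x : Fin 4 → ℂ, x ≠ 0 ∧ ∑ m, x m = 0 ∧
      star x ⬝ᵥ (lapC G *ᵥ x) = μ * (star x ⬝ᵥ x) ∧
      (lapC G *ᵥ x) i - (lapC G *ᵥ x) j = μ * (x i - x j) := by
    rintro μ ⟨y, hy, hμ⟩
    have hyy : star (Q *ᵥ y) ⬝ᵥ (Q *ᵥ y) = star y ⬝ᵥ y := by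
      rw [star_mulVec, dotProduct_mulVec, vecMul_vecMul, hQ.1, vecMul_one]
    have hsum : ∀ y : Fin (4 - 1) → ℂ, ∑ m, (Q *ᵥ y) m = 0 := by
      intro y
      simp only [mulVec, dotProduct]
      rw [sum_comm]
      refine sum_eq_zero fun k _ => ?_
      rw [← sum_mul, hQ.2 k, zero_mul]
    refine ⟨Q *ᵥ y, ?_, hsum y, ?_, ?_⟩
    · intro h0
      apply hy
      rw [h0] at hyy
      simp only [star_zero, zero_dotProduct] at hyy
      rw [← sum_normSq_eq] at hyy
      have h1 : ∑ i, ‖y i‖ ^ 2 = 0 := by exact_mod_cast hyy.symm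
      funext m
      have := (sum_eq_zero_iff_of_nonneg (fun i _ => by positivity)).1 h1 m (mem_univ m)
      simpa using this
    · rw [hyy, star_mulVec, ← dotProduct_mulVec, mulVec_mulVec, mulVec_mulVec, hμ,
        dotProduct_smul, smul_eq_mul]
    · set z : Fin 4 → ℂ := Pi.single i 1 - Pi.single j 1 with hz
      have hz0 : ∑ m, z m = 0 := by
        simp [hz, Pi.sub_apply, sum_sub_distrib]
      have hzQ := restrictor_complete Q hQ z hz0
      have hstar : star z = z := by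
        funext m
        simp only [hz, Pi.star_apply, Pi.sub_apply, star_sub]
        by_cases h1 : m = i <;> by_cases h2 : m = j <;>
          simp [Pi.single_apply, h1, h2]
      have hzdot : ∀ w : Fin 4 → ℂ, star z ⬝ᵥ w = w i - w j := by
        intro w
        rw [hstar, hz, sub_dotProduct, single_dotProduct, single_dotProduct, one_mul, one_mul]
      have e1 : star z ⬝ᵥ (lapC G *ᵥ (Q *ᵥ y)) = μ * (star (Qᴴ *ᵥ z) ⬝ᵥ y) := by
        calc star z ⬝ᵥ (lapC G *ᵥ (Q *ᵥ y))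
            = star (Q *ᵥ (Qᴴ *ᵥ z)) ⬝ᵥ (lapC G *ᵥ (Q *ᵥ y)) := by rw [hzQ]
          _ = star (Qᴴ *ᵥ z) ⬝ᵥ ((Qᴴ * lapC G * Q) *ᵥ y) := by
              rw [star_mulVec (Q) (Qᴴ *ᵥ z), ← dotProduct_mulVec, mulVec_mulVec, mulVec_mulVec]
          _ = μ * (star (Qᴴ *ᵥ z) ⬝ᵥ y) := by rw [hμ, dotProduct_smul, smul_eq_mul]
      have e2 : star z ⬝ᵥ (Q *ᵥ y) = star (Qᴴ *ᵥ z) ⬝ᵥ y := by
        calc star z ⬝ᵥ (Q *ᵥ y) = star (Q *ᵥ (Qᴴ *ᵥ z)) ⬝ᵥ (Q *ᵥ y) := by rw [hzQ]
          _ = star (Qᴴ *ᵥ z) ⬝ᵥ y := by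
              rw [star_mulVec (Q) (Qᴴ *ᵥ z), ← dotProduct_mulVec, mulVec_mulVec, hQ.1, one_mulVec]
      rw [hzdot] at e1 e2
      rw [e1, ← e2]
  -- real parts
  have hreim : ∀ x : Fin 4 → ℂ, ∑ m, x m = 0 → ∑ m, (x m).re = 0 ∧ ∑ m, (x m).im = 0 := by
    intro x hx
    have h1 := congrArg Complex.re hx
    have h2 := congrArg Complex.im hx
    simp only [Complex.re_sum, Complex.im_sum, Complex.zero_re, Complex.zero_im] at h1 h2
    exact ⟨h1, h2⟩
  have hre : ∀ x : Fin 4 → ℂ, (star x ⬝ᵥ x).re = ∑ m, (x m).re ^ 2 + ∑ m, (x m).im ^ 2 := by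
    intro x
    rw [← sum_normSq_eq, Complex.ofReal_re, normSq_split]
  have hposx : ∀ x : Fin 4 → ℂ, x ≠ 0 → 0 < ∑ m, (x m).re ^ 2 + ∑ m, (x m).im ^ 2 := by
    intro x hx
    rw [← normSq_split]
    refine lt_of_le_of_ne (sum_nonneg fun i _ => by positivity) fun h0 => hx ?_
    funext m
    have := (sum_eq_zero_iff_of_nonneg (fun i _ => by positivity)).1 h0.symm m (mem_univ m)
    simpa using this
  -- every eigenvalue satisfies `τ * re μ < τ * κ`
  have hlt : ∀ μ ∈ eigenvalues (Qᴴ * lapC G * Q), (τ : ℝ) * μ.re < τ * kap γ τ := by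
    intro μ hμ
    obtain ⟨x, hx0, hxs, hx1, hx2⟩ := heig μ hμ
    obtain ⟨hr, hi⟩ := hreim x hxs
    have e1 := congrArg Complex.re hx1
    have him : (star x ⬝ᵥ x).im = 0 := by rw [← sum_normSq_eq, Complex.ofReal_im]
    rw [form_re, Complex.mul_re, him, hre, mul_zero, sub_zero] at e1
    have g1 := gap_nonneg hsymm hdiag hP hτ hF _ hr
    have g2 := gap_nonneg hsymm hdiag hP hτ hF _ hi
    have hp := hposx x hx0
    have hle : 0 ≤ (τ : ℝ) * (kap γ τ - μ.re) * (∑ m, (x m).re ^ 2 + ∑ m, (x m).im ^ 2) := by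
      have : (τ : ℝ) * (kap γ τ - μ.re) * (∑ m, (x m).re ^ 2 + ∑ m, (x m).im ^ 2) =
          τ * (kap γ τ * (∑ m, (x m).re ^ 2) - F G fun m => (x m).re) +
          τ * (kap γ τ * (∑ m, (x m).im ^ 2) - F G fun m => (x m).im) := by
        linear_combination (τ : ℝ) * e1
      rw [this]; exact add_nonneg g1 g2
    have hle2 : 0 ≤ (τ : ℝ) * (kap γ τ - μ.re) := nonneg_of_mul_nonneg_left hle hp
    refine lt_of_le_of_ne (by linarith) fun heq => ?_
    have hμκ : μ.re = kap γ τ := by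
      have hτ0 : (τ : ℝ) ≠ 0 := by rcases hτ with rfl | rfl <;> norm_num
      exact mul_left_cancel₀ hτ0 heq
    rw [hμκ] at e1
    have z1 : τ * (kap γ τ * (∑ m, (x m).re ^ 2) - F G fun m => (x m).re) = 0 := by
      have : τ * (kap γ τ * (∑ m, (x m).re ^ 2) - F G fun m => (x m).re) +
          τ * (kap γ τ * (∑ m, (x m).im ^ 2) - F G fun m => (x m).im) = 0 := by
        linear_combination (-(τ : ℝ)) * e1
      linarith
    have z2 : τ * (kap γ τ * (∑ m, (x m).im ^ 2) - F G fun m => (x m).im) = 0 := by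
      have : τ * (kap γ τ * (∑ m, (x m).re ^ 2) - F G fun m => (x m).re) +
          τ * (kap γ τ * (∑ m, (x m).im ^ 2) - F G fun m => (x m).im) = 0 := by
        linear_combination (-(τ : ℝ)) * e1
      linarith
    obtain ⟨r1, r2, r3⟩ := gap_zero hsymm hdiag hP hτ hF _ hr z1
    obtain ⟨i1, i2, i3⟩ := gap_zero hsymm hdiag hP hτ hF _ hi z2
    have k1 : x k = x j := Complex.ext r1 i1
    have k2 : x i = ((-√3 : ℝ) : ℂ) * x j := by
      apply Complex.ext
      · rw [Complex.re_ofReal_mul]; exact r2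
      · rw [Complex.im_ofReal_mul]; exact i2
    have k3 : x l = ((√3 - 2 : ℝ) : ℂ) * x j := by
      apply Complex.ext
      · rw [Complex.re_ofReal_mul]; exact r3
      · rw [Complex.im_ofReal_mul]; exact i3
    have hxj : x j ≠ 0 := by
      intro h0
      apply hx0
      rw [h0] at k1 k2 k3
      rw [mul_zero] at k2 k3
      have hall : ∀ m, m = i ∨ m = j ∨ m = k ∨ m = l := by
        intro m
        have hf := inj4 hij hik hil hjk hjl hkl
        have hb := (Finite.injective_iff_surjective.1 hf) m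
        obtain ⟨a, ha⟩ := hb
        rw [← ha]
        fin_cases a <;> simp
      funext m
      rcases hall m with rfl | rfl | rfl | rfl
      · exact k2
      · exact h0
      · exact k1
      · exact k3
    -- the row difference
    have hrow : ∀ m, (lapC G *ᵥ x) m = (((lap G m i * (-√3) + lap G m j + lap G m k +
        lap G m l * (√3 - 2) : ℝ)) : ℂ) * x j := by
      intro m
      unfold lapC
      simp only [mulVec, dotProduct, of_apply]
      rw [sum4 _ hij hik hil hjk hjl hkl, k1, k2, k3]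
      push_cast
      ring
    rw [hrow, hrow, k2] at hx2
    have hx3 : (((lap G i i * (-√3) + lap G i j + lap G i k + lap G i l * (√3 - 2)) -
        (lap G j i * (-√3) + lap G j j + lap G j k + lap G j l * (√3 - 2)) : ℝ) : ℂ) =
        μ * ((-√3 - 1 : ℝ) : ℂ) := by
      apply mul_right_cancel₀ hxj
      push_cast at hx2 ⊢
      linear_combination hx2
    have hx4 := congrArg Complex.re hx3
    rw [Complex.ofReal_re, Complex.re_mul_ofReal, hμκ] at hx4
    simp only [lap_apply, arc_self G hl] at hx4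
    simp only [if_neg hij, if_neg hik, if_neg hil, if_neg (Ne.symm hij), if_neg hjk,
      if_neg hjl, if_true] at hx4
    unfold kap at hx4
    -- integers
    have hx5 : ((2 * (-(arc G i j) - arc G i k + 2 * arc G i l - outDeg G j + arc G j k -
        2 * arc G j l) + γ + 2 * τ : ℤ) : ℝ) +
        ((2 * (-(outDeg G i : ℤ) - arc G i l - arc G j i + arc G j l) + γ + τ : ℤ) : ℝ) * √3 = 0 := by
      push_cast
      push_cast at hx4
      linear_combination 2 * hx4 + (-(τ : ℝ) / 2) * h3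
    have hirr : Irrational (√3) := Nat.Prime.irrational_sqrt Nat.prime_three
    obtain ⟨a, ha⟩ : ∃ a : ℤ, a = 2 * (-(arc G i j) - arc G i k + 2 * arc G i l - outDeg G j +
      arc G j k - 2 * arc G j l) + γ + 2 * τ := ⟨_, rfl⟩
    obtain ⟨b, hb⟩ : ∃ b : ℤ, b = 2 * (-(outDeg G i : ℤ) - arc G i l - arc G j i + arc G j l) + γ + τ :=
      ⟨_, rfl⟩
    rw [← ha, ← hb] at hx5
    have hb0 : b = 0 := by
      by_contra hb0
      apply hirr
      refine ⟨-(a : ℚ) / b, ?_⟩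
      have hbR : (b : ℝ) ≠ 0 := by exact_mod_cast hb0
      push_cast
      rw [div_eq_iff hbR]
      linarith
    rw [hb0] at hx5
    have ha0 : a = 0 := by
      have : (a : ℝ) = 0 := by
        push_cast at hx5
        linarith
      exact_mod_cast this
    rcases hτ with rfl | rfl <;> omega
  -- the extreme vector
  have hx0 : ∃ z ∈ numRange G, (τ : ℝ) * z.re = τ * kap γ τ := by
    let X : Fin 4 → ℝ := fun m => if m = i then -√3 else if m = l then √3 - 2 else 1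
    have Xi : X i = -√3 := by simp [X]
    have Xl : X l = √3 - 2 := by simp [X, Ne.symm hil]
    have Xj : X j = 1 := by simp [X, Ne.symm hij, hjl]
    have Xk : X k = 1 := by simp [X, Ne.symm hik, hkl]
    have hlt4 : √3 < 2 := by nlinarith
    have hNpos : 0 < 12 - 4 * √3 := by linarith
    set N := √(12 - 4 * √3) with hN
    have hN2 : N ^ 2 = 12 - 4 * √3 := Real.sq_sqrt hNpos.le
    have hN0 : 0 < N := Real.sqrt_pos.2 hNpos
    let x : Fin 4 → ℝ := fun m => N⁻¹ * X m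
    have hxs : ∑ m, x m = 0 := by
      simp only [x]
      rw [← mul_sum, sum4 _ hij hik hil hjk hjl hkl, Xi, Xj, Xk, Xl]
      ring
    have hx1 : ∑ m, x m ^ 2 = 1 := by
      simp only [x, mul_pow]
      rw [← mul_sum, sum4 _ hij hik hil hjk hjl hkl, Xi, Xj, Xk, Xl]
      have : (-√3) ^ 2 + 1 ^ 2 + 1 ^ 2 + (√3 - 2) ^ 2 = N ^ 2 := by
        rw [hN2]; linear_combination 2 * h3
      rw [this, ← mul_pow, inv_mul_cancel₀ hN0.ne', one_pow]
    have hval : (τ : ℝ) * (kap γ τ * (∑ m, x m ^ 2) - F G x) = 0 := by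
      rw [gap_eq hsymm hdiag hP hτ hF x hxs]
      have e1 : √3 * x i + x j + x k - (√3 + 2) * x l = 0 := by
        simp only [x]
        rw [Xi, Xj, Xk, Xl]
        linear_combination (-2 * N⁻¹) * h3
      have e2 : x j - x k = 0 := by
        simp only [x]
        rw [Xj, Xk]; ring
      rw [e1, e2]
      ring
    refine ⟨star (fun m => (x m : ℂ)) ⬝ᵥ (lapC G *ᵥ fun m => (x m : ℂ)),
      ⟨fun m => (x m : ℂ), ?_, ?_, rfl⟩, ?_⟩
    · change ∑ m, ((x m : ℝ) : ℂ) = 0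
      rw [← Complex.ofReal_sum, hxs, Complex.ofReal_zero]
    · rw [← hx1]
      refine sum_congr rfl fun m _ => ?_
      rw [Complex.norm_real, Real.norm_eq_abs, sq_abs]
    · rw [form_re]
      simp only [Complex.ofReal_re, Complex.ofReal_im]
      have h0 : F G (fun _ : Fin 4 => (0 : ℝ)) = 0 := by
        unfold F
        have : (fun _ : Fin 4 => (0 : ℝ)) = 0 := rfl
        rw [this, mulVec_zero, dotProduct_zero]
      rw [h0, add_zero]
      rw [hx1] at hval
      linear_combination -hval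
  obtain ⟨z, hz, hzr⟩ := hx0
  rw [hconv] at hz
  have hsub : convexHull ℝ (eigenvalues (Qᴴ * lapC G * Q)) ⊆
      {z : ℂ | (τ : ℝ) * z.re < τ * kap γ τ} := by
    apply convexHull_min
    · intro μ hμ
      exact hlt μ hμ
    · have : {z : ℂ | (τ : ℝ) * z.re < τ * kap γ τ} =
          {z : ℂ | ((τ : ℝ) • Complex.reLm) z < τ * kap γ τ} := by
        ext z; simp
      rw [this]
      exact convex_halfSpace_lt (LinearMap.isLinear _) _
  have := hsub hz
  have this' : (τ : ℝ) * z.re < τ * kap γ τ := this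
  linarith

/-- **Main result.** Let `G` be a digraph of order `n ≥ 2` without loops and with Laplacian spread
`0 < sp(G) < 1`. Then `n = 4`, and `G` is not polygonal.  In particular no polygonal digraph has
Laplacian spread strictly between `0` and `1`, and for `n ≠ 4` no digraph of order `n` at all has
such a spread. -/
theorem result (n : ℕ) (hn : 2 ≤ n) (G : Digraph (Fin n)) (hl : ∀ i, ¬ G.Adj i i)
    (h0 : 0 < sp G) (h1 : sp G < 1) : n = 4 ∧ ¬ IsPolygonal G := by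
  obtain ⟨h4, E, γ, τ, i, j, k, l, hsymm, hdiag, hP, hτ, hF⟩ := reduction G hl hn h1 h0.ne'
  refine ⟨h4, ?_⟩
  subst h4
  exact four hl hsymm hdiag hP hτ hF

end Pool.Agent.Results.MP_e61cf5_co.SpreadGap
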